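import Pool.Agent.Y359.DD.Deg

/-!
# Directed domination numbers, matching numbers and degrees

Every `r`-regular graph `G` with `r ≥ 3` has directed domination number at most its matching
number `α'(G)` (and `α'(G) ≤ n / 2`).  More generally the maximum of the directed domination
number over all graphs with `n` vertices and all degrees between `δ ≥ 1` and `Δ` is determined:
it is at most `Δ n / (Δ + δ)`, with equality whenever `Δ + δ` divides `n`, except for
`(δ, Δ) = (2, 2), (2, 3)`, where the bound is `2 n / 3`, with equality whenever `3` divides `n`.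

The proof (`Pool.Agent.Y359.DD.*`): an extremal pair `(A, F)` (Tutte, Berge, Gallai) whose odd
sets are factor critical; Hall's theorem with extra vertices chooses a maximum matching which
leaves almost no bad member of `F` unmatched; the other unmatched members are handled by the
structure theorem of `Pool.Agent.H168DD` for strongly connected orientations.
-/

set_option autoImplicit false

universe u

namespace Pool.Agent.Results.MP_a74ba6_co.MatchingNumber

/-- `D` is an orientation of `G`: every edge of `G` gets exactly one of its two directions, and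
there are no other arcs. -/
def IsOrientation {V : Type u} (G : SimpleGraph V) (D : Digraph V) : Prop :=
  (∀ a b, D.Adj a b → ¬ D.Adj b a) ∧ ∀ a b, G.Adj a b ↔ (D.Adj a b ∨ D.Adj b a)

/-- `S` is a dominating set of `D`: every vertex outside `S` is the head of an arc whose tail lies
in `S`. -/
def IsDominating {V : Type u} (D : Digraph V) (S : Finset V) : Prop :=
  ∀ v, v ∉ S → ∃ w ∈ S, D.Adj w v

/-- The domination number of `D`: the minimum size of a dominating set. -/
noncomputable def gamma {V : Type u} (D : Digraph V) : ℕ :=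
  sInf {k | ∃ S : Finset V, IsDominating D S ∧ S.card = k}

/-- The directed domination number of `G`: the maximum of `gamma D` over all orientations `D` of
`G`. -/
noncomputable def Gamma {V : Type u} (G : SimpleGraph V) : ℕ :=
  sSup {k | ∃ D : Digraph V, IsOrientation G D ∧ gamma D = k}

/-- The matching number of `G`: the maximum number of edges of a matching of `G`. -/
noncomputable def nu {V : Type u} (G : SimpleGraph V) : ℕ :=
  sSup {k | ∃ M : G.Subgraph, M.IsMatching ∧ M.edgeSet.ncard = k}

/-- All degrees of `G` lie between `δ` and `Δ`. -/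
def DegreesIn {V : Type u} (G : SimpleGraph V) (δ Δ : ℕ) : Prop :=
  ∀ v, δ ≤ (G.neighborSet v).ncard ∧ (G.neighborSet v).ncard ≤ Δ

section basics

variable {V : Type u} [Fintype V] {G : SimpleGraph V}

lemma ncard_neighborSet (v : V) :
    (G.neighborSet v).ncard = H168DD.nb G v Finset.univ := by
  classical
  unfold H168DD.nb
  rw [← Set.ncard_coe_finset]
  congr 1
  ext w
  simp

lemma Gamma_le {B : ℕ} (h : ∀ D, IsOrientation G D → gamma D ≤ B) : Gamma G ≤ B := by
  unfold Gamma
  rcases Set.eq_empty_or_nonempty {k | ∃ D : Digraph V, IsOrientation G D ∧ gamma D = k} with h1 | h1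
  · rw [h1]; simp
  · apply csSup_le h1
    rintro k ⟨D, hD, rfl⟩
    exact h D hD

lemma gamma_le {D : Digraph V} {S : Finset V} (h : IsDominating D S) :
    gamma D ≤ S.card := Nat.sInf_le ⟨S, h, rfl⟩

lemma le_gamma {D : Digraph V} {B : ℕ} (h : ∀ S, IsDominating D S → B ≤ S.card) :
    B ≤ gamma D := by
  apply le_csInf
  · exact ⟨_, Finset.univ, fun v hv => absurd (Finset.mem_univ v) hv, rfl⟩
  · rintro k ⟨S, hS, rfl⟩
    exact h S hS

lemma le_Gamma {D : Digraph V} (hD : IsOrientation G D) : gamma D ≤ Gamma G := by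
  apply le_csSup
  · refine ⟨Fintype.card V, ?_⟩
    rintro k ⟨D', _, rfl⟩
    exact (gamma_le (S := Finset.univ) (fun v hv => absurd (Finset.mem_univ v) hv)).trans
      (Finset.card_univ).le
  · exact ⟨D, hD, rfl⟩

lemma exists_matching [DecidableEq V] {S : Finset V} {m : V → V} (h : Pool.Agent.Y359.DD.PM G S m) :
    S.card ≤ 2 * nu G := by
  classical
  let M : G.Subgraph :=
    { verts := ↑S
      Adj := fun x y => x ∈ S ∧ m x = y
      adj_sub := by
        rintro x y ⟨hx, rfl⟩
        exact (h x hx).2.2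
      edge_vert := by
        rintro x y ⟨hx, _⟩
        exact hx
      symm := ⟨by
        rintro x y ⟨hx, rfl⟩
        exact ⟨(h x hx).1, (h x hx).2.1⟩⟩ }
  have hM : M.IsMatching := by
    intro v hv
    exact ⟨m v, ⟨hv, rfl⟩, fun w hw => hw.2.symm⟩
  have hE : M.edgeSet = ↑(S.image (fun x => s(x, m x))) := by
    ext e
    induction e using Sym2.ind with
    | _ a b =>
      rw [SimpleGraph.Subgraph.mem_edgeSet, Finset.mem_coe, Finset.mem_image]
      constructor
      · rintro ⟨ha, rfl⟩
        exact ⟨a, ha, rfl⟩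
      · rintro ⟨x, hx, hxe⟩
        rw [Sym2.eq_iff] at hxe
        rcases hxe with ⟨rfl, rfl⟩ | ⟨rfl, rfl⟩
        · exact ⟨hx, rfl⟩
        · exact ⟨(h x hx).1, (h x hx).2.1⟩
  have hcard : S.card ≤ 2 * (S.image (fun x => s(x, m x))).card := by
    apply Finset.card_le_mul_card_image
    intro e he
    obtain ⟨y, hy, rfl⟩ := Finset.mem_image.1 he
    refine (Finset.card_le_card (t := {y, m y}) ?_).trans Finset.card_le_two
    intro x hx
    rw [Finset.mem_filter, Sym2.eq_iff] at hx
    rw [Finset.mem_insert, Finset.mem_singleton]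
    rcases hx.2 with ⟨h1, _⟩ | ⟨h1, _⟩
    · exact Or.inl h1
    · exact Or.inr h1
  have hnu : (S.image (fun x => s(x, m x))).card ≤ nu G := by
    apply le_csSup
    · refine ⟨(Set.univ : Set (Sym2 V)).ncard, ?_⟩
      rintro k ⟨M', _, rfl⟩
      exact Set.ncard_le_ncard (Set.subset_univ _) Set.finite_univ
    · refine ⟨M, hM, ?_⟩
      rw [hE, Set.ncard_coe_finset]
  omega

/-- the general bounds -/
lemma bounds {b : ℕ} (hb : ∀ D : V → V → Prop, H168DD.Ori G D →
      ∀ A' F', Pool.Agent.Y359.DD.Fam G A' F' → (∀ O ∈ F', Pool.Agent.Y359.DD.Bad G O) →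
        F'.card ≤ A'.card + b) :
    Gamma G ≤ nu G + b ∧ 2 * Gamma G ≤ Fintype.card V + b := by
  classical
  have key : ∀ D, IsOrientation G D → gamma D ≤ nu G + b ∧ 2 * gamma D ≤ Fintype.card V + b := by
    intro D hD
    obtain ⟨C, S, m, hm, hC, h1, h2⟩ :=
      Pool.Agent.Y359.DD.core (G := G) (D := D.Adj) ⟨hD.1, hD.2⟩ b (hb D.Adj ⟨hD.1, hD.2⟩)
    have h3 := gamma_le (D := D) (S := C) hC
    have h4 := exists_matching hm
    omega
  constructor
  · exact Gamma_le (fun D hD => (key D hD).1)
  · have : Gamma G ≤ (Fintype.card V + b) / 2 := Gamma_le (fun D hD => by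
      have := (key D hD).2
      omega)
    omega

lemma main_bound {δ k : ℕ} (h1 : 1 ≤ δ) (hex : ¬ (δ = 2 ∧ δ + k ≤ 3))
    (hG : DegreesIn G δ (δ + k)) :
    Gamma G ≤ nu G + k * Fintype.card V / (2 * δ + k) ∧
      (2 * δ + k) * Gamma G ≤ (δ + k) * Fintype.card V := by
  classical
  have hb := bounds (G := G) (b := k * Fintype.card V / (2 * δ + k))
    (fun D hD A' F' h hB => Pool.Agent.Y359.DD.bad_fam hD h1 hex
      (fun v => by rw [← ncard_neighborSet]; exact (hG v).1)
      (fun v => by rw [← ncard_neighborSet]; exact (hG v).2) h hB)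
  refine ⟨hb.1, ?_⟩
  have h2 := hb.2
  have h3 : k * Fintype.card V / (2 * δ + k) * (2 * δ + k) ≤ k * Fintype.card V :=
    Nat.div_mul_le_self _ _
  have h4 := Nat.mul_le_mul_right (2 * δ + k) h2
  rw [add_mul] at h4
  have e1 : 2 * Gamma G * (2 * δ + k) = 2 * ((2 * δ + k) * Gamma G) := by ring
  have e2 : Fintype.card V * (2 * δ + k) + k * Fintype.card V =
      2 * ((δ + k) * Fintype.card V) := by ring
  omega

lemma main_bound' (hG : DegreesIn G 2 3) : 3 * Gamma G ≤ 2 * Fintype.card V := by
  classical
  have hb := bounds (G := G) (b := Fintype.card V / 3)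
    (fun D hD A' F' h hB => Pool.Agent.Y359.DD.bad_fam' hD
      (fun v => by rw [← ncard_neighborSet]; exact (hG v).1)
      (fun v => by rw [← ncard_neighborSet]; exact (hG v).2) h hB)
  have h2 := hb.2
  omega

end basics

/-- disjoint copies of a complete bipartite graph -/
lemma sharp {n δ Δ q : ℕ} (hle : δ ≤ Δ) (hn : n = (Δ + δ) * q) :
    ∃ G : SimpleGraph (Fin n), DegreesIn G δ Δ ∧ Δ * q ≤ Gamma G := by
  classical
  have hcard : Fintype.card (Fin n) = Fintype.card (Fin q × (Fin Δ ⊕ Fin δ)) := by
    simp only [Fintype.card_fin, Fintype.card_prod, Fintype.card_sum]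
    rw [hn]; ring
  let e : Fin n ≃ Fin q × (Fin Δ ⊕ Fin δ) := Fintype.equivOfCardEq hcard
  let A : Fin n → Fin n → Prop := fun u v =>
    (e u).1 = (e v).1 ∧ (e u).2.isLeft = true ∧ (e v).2.isRight = true
  have hA : ∀ u v, A u v → ¬ A v u := by
    rintro u v ⟨_, h1, _⟩ ⟨_, _, h2⟩
    cases h : (e u).2 with
    | inl a => rw [h] at h2; simp at h2
    | inr a => rw [h] at h1; simp at h1
  let G : SimpleGraph (Fin n) :=
    { Adj := fun u v => A u v ∨ A v u
      symm := ⟨fun u v h => h.symm⟩
      loopless := ⟨fun u h => by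
        rcases h with h | h <;> exact hA u u h h⟩ }
  let D : Digraph (Fin n) := { Adj := A }
  have hD : IsOrientation G D := ⟨hA, fun a b => Iff.rfl⟩
  refine ⟨G, ?_, ?_⟩
  · intro u
    cases h : (e u).2 with
    | inl a =>
      have : G.neighborSet u = ↑((Finset.univ : Finset (Fin δ)).image
          (fun b => e.symm ((e u).1, Sum.inr b))) := by
        ext v
        rw [SimpleGraph.mem_neighborSet, Finset.mem_coe, Finset.mem_image]
        constructor
        · rintro (⟨h1, _, h3⟩ | ⟨_, _, h3⟩)
          · cases hv : (e v).2 with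
            | inl b => rw [hv] at h3; simp at h3
            | inr b =>
              refine ⟨b, Finset.mem_univ _, ?_⟩
              rw [Equiv.symm_apply_eq, h1, ← hv]
          · rw [h] at h3; simp at h3
        · rintro ⟨b, _, rfl⟩
          left
          refine ⟨by simp, by simp [h], by simp⟩
      rw [this, Set.ncard_coe_finset, Finset.card_image_of_injective, Finset.card_univ,
        Fintype.card_fin]
      · exact ⟨le_rfl, hle⟩
      intro b b' hb
      simpa using hb
    | inr a =>
      have : G.neighborSet u = ↑((Finset.univ : Finset (Fin Δ)).image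
          (fun b => e.symm ((e u).1, Sum.inl b))) := by
        ext v
        rw [SimpleGraph.mem_neighborSet, Finset.mem_coe, Finset.mem_image]
        constructor
        · rintro (⟨_, h3, _⟩ | ⟨h1, h3, _⟩)
          · rw [h] at h3; simp at h3
          · cases hv : (e v).2 with
            | inr b => rw [hv] at h3; simp at h3
            | inl b =>
              refine ⟨b, Finset.mem_univ _, ?_⟩
              rw [Equiv.symm_apply_eq, ← h1, ← hv]
        · rintro ⟨b, _, rfl⟩
          right
          refine ⟨by simp, by simp, by simp [h]⟩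
      rw [this, Set.ncard_coe_finset, Finset.card_image_of_injective, Finset.card_univ,
        Fintype.card_fin]
      · exact ⟨hle, le_rfl⟩
      intro b b' hb
      simpa using hb
  · refine le_trans (le_gamma ?_) (le_Gamma hD)
    intro S hS
    have hsub : (Finset.univ : Finset (Fin q × Fin Δ)).image
        (fun p => e.symm (p.1, Sum.inl p.2)) ⊆ S := by
      intro v hv
      rw [Finset.mem_image] at hv
      obtain ⟨p, _, rfl⟩ := hv
      by_contra hnot
      obtain ⟨w, _, _, _, h3⟩ := hS _ hnot
      simp at h3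
    have h1 := Finset.card_le_card hsub
    rw [Finset.card_image_of_injective, Finset.card_univ, Fintype.card_prod, Fintype.card_fin,
      Fintype.card_fin] at h1
    · rw [mul_comm]; exact h1
    · rintro ⟨a, b⟩ ⟨a', b'⟩ h
      simpa using h

/-- disjoint cyclic triangles -/
lemma sharp' {n q : ℕ} (hn : n = 3 * q) :
    ∃ G : SimpleGraph (Fin n), DegreesIn G 2 2 ∧ 2 * q ≤ Gamma G := by
  classical
  have hcard : Fintype.card (Fin n) = Fintype.card (Fin q × Fin 3) := by
    simp only [Fintype.card_fin, Fintype.card_prod]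
    rw [hn]; ring
  let e : Fin n ≃ Fin q × Fin 3 := Fintype.equivOfCardEq hcard
  let A : Fin n → Fin n → Prop := fun u v => (e u).1 = (e v).1 ∧ (e v).2 = (e u).2 + 1
  have h3a : ∀ a b : Fin 3, b = a + 1 → ¬ a = b + 1 := by decide
  have h3b : ∀ a : Fin 3, a + 1 ≠ a + 2 := by decide
  have h3c : ∀ a b : Fin 3, a = b + 1 ↔ b = a + 2 := by decide
  have h3d : ∀ a b : Fin 3, a ≠ b → b = a + 1 ∨ a = b + 1 := by decide
  have hA : ∀ u v, A u v → ¬ A v u := by
    rintro u v ⟨_, h1⟩ ⟨_, h2⟩
    exact h3a _ _ h1 h2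
  let G : SimpleGraph (Fin n) :=
    { Adj := fun u v => A u v ∨ A v u
      symm := ⟨fun u v h => h.symm⟩
      loopless := ⟨fun u h => by
        rcases h with h | h <;> exact hA u u h h⟩ }
  let D : Digraph (Fin n) := { Adj := A }
  have hD : IsOrientation G D := ⟨hA, fun a b => Iff.rfl⟩
  refine ⟨G, ?_, ?_⟩
  · intro u
    have : G.neighborSet u = ↑({e.symm ((e u).1, (e u).2 + 1), e.symm ((e u).1, (e u).2 + 2)} :
        Finset (Fin n)) := by
      ext v
      rw [SimpleGraph.mem_neighborSet, Finset.coe_pair, Set.mem_insert_iff, Set.mem_singleton_iff,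
        Equiv.eq_symm_apply, Equiv.eq_symm_apply, Prod.ext_iff, Prod.ext_iff]
      constructor
      · rintro (⟨h1, h2⟩ | ⟨h1, h2⟩)
        · exact Or.inl ⟨h1.symm, h2⟩
        · exact Or.inr ⟨h1, (h3c _ _).1 h2⟩
      · rintro (⟨h1, h2⟩ | ⟨h1, h2⟩)
        · exact Or.inl ⟨h1.symm, h2⟩
        · exact Or.inr ⟨h1, (h3c _ _).2 h2⟩
    rw [this, Set.ncard_coe_finset, Finset.card_pair]
    · exact ⟨le_rfl, le_rfl⟩
    · intro heq
      have h1 := congrArg Prod.snd (e.symm.injective heq)
      exact h3b _ h1
  · refine le_trans (le_gamma ?_) (le_Gamma hD)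
    intro S hS
    have hinj : (Sᶜ).card ≤ (Finset.univ : Finset (Fin q)).card := by
      apply Finset.card_le_card_of_injOn (fun v => (e v).1)
      · intro v _
        simp
      · have aux : ∀ v w, v ∉ S → w ∉ S → (e v).1 = (e w).1 → ¬ (e w).2 = (e v).2 + 1 := by
          intro v w hv hw h1 h2
          obtain ⟨x, hx, hxw⟩ := hS w hw
          have h4 : (e x).1 = (e w).1 ∧ (e w).2 = (e x).2 + 1 := hxw
          have h5 : e x = e v := by
            apply Prod.ext
            · rw [h4.1, h1]
            · have h6 := h4.2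
              rw [h2] at h6
              exact (add_right_cancel h6).symm
          exact hv (e.injective h5 ▸ hx)
        intro v hv w hw hvw
        rw [Finset.mem_coe, Finset.mem_compl] at hv hw
        simp only at hvw
        apply e.injective
        apply Prod.ext hvw
        by_contra hne
        rcases h3d _ _ hne with h | h
        · exact aux v w hv hw hvw h
        · exact aux w v hw hv hvw.symm h
    rw [Finset.card_univ, Fintype.card_fin] at hinj
    have h2 := Finset.card_add_card_compl S
    rw [Fintype.card_fin] at h2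
    omega

/-- **Directed domination number, matching number and degrees.**  (1) For `r ≥ 3` every orientation
of an `r`-regular graph has a dominating set with at most `α'(G)` vertices; in particular
`Γ_d(G) ≤ n / 2`.  (2) If `1 ≤ δ ≤ Δ` and `(δ, Δ)` is neither `(2, 2)` nor `(2, 3)`, then every
graph with all degrees in `[δ, Δ]` has `Γ_d(G) ≤ α'(G) + ⌊(Δ - δ) n / (Δ + δ)⌋` and
`Γ_d(G) ≤ Δ n / (Δ + δ)`, and for every `n` divisible by `Δ + δ` the last bound is attained.
(3) For `(2, 2)` and `(2, 3)` the sharp bound is `Γ_d(G) ≤ 2 n / 3`, attained for every `n`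
divisible by `3`. -/
theorem result :
    (∀ r : ℕ, 3 ≤ r → ∀ (V : Type u) [Fintype V] (G : SimpleGraph V), DegreesIn G r r →
      Gamma G ≤ nu G ∧ 2 * Gamma G ≤ Fintype.card V) ∧
    (∀ δ Δ : ℕ, 1 ≤ δ → δ ≤ Δ → ¬ (δ = 2 ∧ Δ ≤ 3) →
      (∀ (V : Type u) [Fintype V] (G : SimpleGraph V), DegreesIn G δ Δ →
        Gamma G ≤ nu G + (Δ - δ) * Fintype.card V / (Δ + δ) ∧
        (Δ + δ) * Gamma G ≤ Δ * Fintype.card V) ∧
      ∀ n : ℕ, Δ + δ ∣ n → ∃ G : SimpleGraph (Fin n), DegreesIn G δ Δ ∧
        (Δ + δ) * Gamma G = Δ * n) ∧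
    (∀ Δ : ℕ, 2 ≤ Δ → Δ ≤ 3 →
      (∀ (V : Type u) [Fintype V] (G : SimpleGraph V), DegreesIn G 2 Δ →
        3 * Gamma G ≤ 2 * Fintype.card V) ∧
      ∀ n : ℕ, 3 ∣ n → ∃ G : SimpleGraph (Fin n), DegreesIn G 2 Δ ∧
        3 * Gamma G = 2 * n) := by
  refine ⟨?_, ?_, ?_⟩
  · intro r hr V _ G hG
    obtain ⟨h1, h2⟩ := main_bound (G := G) (δ := r) (k := 0) (by omega) (by omega) hG
    constructor
    · simpa using h1
    · have h3 : r * (2 * Gamma G) ≤ r * Fintype.card V := by
        calc r * (2 * Gamma G) = (2 * r + 0) * Gamma G := by ring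
          _ ≤ (r + 0) * Fintype.card V := h2
          _ = r * Fintype.card V := by ring
      exact Nat.le_of_mul_le_mul_left h3 (by omega)
  · intro δ Δ h1 hle hex
    obtain ⟨k, rfl⟩ := Nat.exists_eq_add_of_le hle
    have e0 : δ + k + δ = 2 * δ + k := by ring
    have e1 : δ + k - δ = k := by omega
    refine ⟨?_, ?_⟩
    · intro V _ G hG
      rw [e0, e1]
      exact main_bound h1 hex hG
    · intro n hn
      obtain ⟨q, hq⟩ := hn
      obtain ⟨G, hG, hGam⟩ := sharp (n := n) (δ := δ) (Δ := δ + k) (q := q) hle hq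
      refine ⟨G, hG, ?_⟩
      have h3 := (main_bound h1 hex hG).2
      rw [Fintype.card_fin] at h3
      apply le_antisymm
      · rw [e0]; exact h3
      · calc (δ + k) * n = (δ + k + δ) * ((δ + k) * q) := by rw [hq]; ring
          _ ≤ (δ + k + δ) * Gamma G := Nat.mul_le_mul_left _ hGam
  · intro Δ h2 h3
    have hmono : ∀ (V : Type u) (G : SimpleGraph V), DegreesIn G 2 Δ → DegreesIn G 2 3 :=
      fun V G hG v => ⟨(hG v).1, (hG v).2.trans h3⟩
    refine ⟨fun V _ G hG => main_bound' (hmono V G hG), ?_⟩
    intro n hn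
    obtain ⟨q, hq⟩ := hn
    obtain ⟨G, hG, hGam⟩ := sharp' hq
    refine ⟨G, fun v => ⟨(hG v).1, (hG v).2.trans h2⟩, ?_⟩
    have h4 := main_bound' (G := G) (fun v => ⟨(hG v).1, (hG v).2.trans (by omega)⟩)
    rw [Fintype.card_fin] at h4
    omega

end Pool.Agent.Results.MP_a74ba6_co.MatchingNumber
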